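import Pool.Agent.Results.MP_52e316_nt.PersistentLargeValues
import Pool.Agent.Q231.RS.Fam

/-!
# The Grand Lindelöf Hypothesis is decided by random sample points

Let `π` run through a family of cuspidal representations of `GL(m)`, normalised as in the question, with the classical
properties of their L-functions (functional equation, finite order, Molteni's bound), or let the L-functions be those of
primitive Dirichlet characters of modulus `q > 1`, for which all of this is proved. For each member `i` of the family let
`V_{i,j}` be random points of the real line, with arbitrary dependence, that hit every measurable subset `E` of every unit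
interval `[n, n + 1]` with probability at least `c |E|`, where `c > 0` does not depend on `i`. For every `κ ≥ 0` the
bound `|L(1/2 + it, i)| = O(X^(κ + ε))`, `X = (1 + |t|) C_i`, for all `ε > 0`, uniformly in `i` and `t`, holds if and only
if, almost surely, it holds uniformly at the sample points of all members. For `κ = 0` this is the Grand Lindelöf
Hypothesis for the family. In particular it holds if and only if, for almost every `β` in `[0, 1]`, it holds at the
points `n + β`, `n ∈ ℤ`, uniformly in the family.

Proof. By the persistence of large values (starting hand-in `PersistentLargeValues`) a value `≥ X^μ` at `(i, T)` gives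
values `> X^κ` on a subset of measure `≥ δ(κ, μ)` of `[T - 1/2, T + 1/2]`, which the sample hits with a probability
bounded from below; the upper limit of events of probability `≥ p` has probability `≥ p`.
-/

set_option autoImplicit false

open MeasureTheory Filter Set

namespace Pool.Agent.Results.MP_52e316_nt.RandomSampling

open Pool.Agent.Results.MP_52e316_nt.PersistentLargeValues (Datum Molteni Exponent)

/-- For every member `i` of the family the random points `V i j` hit every measurable subset `E` of every unit interval
`[n, n + 1]` with probability at least `c |E|`; `c` does not depend on `i`. Nothing is assumed about dependence. -/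
def HitsSets {Ω : Type} [MeasurableSpace Ω] (P : Measure Ω) {ι J : Type} (V : ι → J → Ω → ℝ) : Prop :=
  ∃ c : ℝ, 0 < c ∧ ∀ (i : ι) (n : ℤ) (E : Set ℝ), MeasurableSet E → E ⊆ Icc (n : ℝ) (n + 1) →
    ENNReal.ofReal c * volume E ≤ P {ω | ∃ j, V i j ω ∈ E}

/-- The bound with any exponent `κ ≥ 0` is decided by almost all samples, and by the points `n + β` for almost all `β`. -/
def DecidedBySamples {ι : Type} (L : ι → ℂ → ℂ) (X : ι → ℝ → ℝ) : Prop :=
  ∀ κ : ℝ, 0 ≤ κ →
    (∀ (Ω : Type) [MeasurableSpace Ω] (P : Measure Ω) [IsProbabilityMeasure P] (J : Type) [Countable J]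
      (V : ι → J → Ω → ℝ), (∀ i j, Measurable (V i j)) → HitsSets P V →
        (Exponent L X univ κ ↔ ∀ᵐ ω ∂P, Exponent L X {y | ∃ j, y.2 = V y.1 j ω} κ)) ∧
    (Exponent L X univ κ ↔ ∀ᵐ β : ℝ, Exponent L X {y | ∃ n : ℤ, y.2 = n + β} κ)

theorem decided_of {ι : Type} {L : ι → ℂ → ℂ} {X : ι → ℝ → ℝ} (H : Pool.Agent.H983R4.GL.Fam L X) :
    DecidedBySamples L X := by
  intro κ hκ
  refine ⟨?_, ?_⟩
  · intro Ω _ P _ J _ V hV hhit
    obtain ⟨c, hc, hhit⟩ := hhit
    exact Pool.Agent.Q231.RS.sample H hκ hV hc (fun i n _ E hE hsub => hhit i n E hE hsub)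
  · constructor
    · intro h
      exact Eventually.of_forall fun β => Pool.Agent.Q231.RS.AdmOn.mono (subset_univ _) h
    · intro h
      refine (Pool.Agent.Q231.RS.sample H hκ (P := volume.restrict (Icc (0 : ℝ) 1))
        (V := fun (_ : ι) (k : ℤ) (β : ℝ) => (k : ℝ) + β) (fun _ k => by fun_prop)
        one_pos (fun _ => Pool.Agent.Q231.RS.hits_translate _)).2 ?_
      exact ae_restrict_of_ae h

/-- **Grand Lindelöf at random samples.** -/
theorem result :
    (∀ (ι : Type) (m : ℕ) (D : ι → Datum m), 1 ≤ m → (∀ i, (D i).Ok) → Molteni D →
      DecidedBySamples (fun i => (D i).f) (fun i T => (1 + |T|) * (D i).C)) ∧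
    (∀ (ι : Type) (q : ι → ℕ) [∀ i, NeZero (q i)] (χ : (i : ι) → DirichletCharacter ℂ (q i)),
      (∀ i, 1 < q i ∧ (χ i).IsPrimitive) →
      DecidedBySamples (fun i => DirichletCharacter.LFunction (χ i)) (fun i T => (q i : ℝ) * (1 + |T|))) := by
  refine ⟨fun ι m D hm hD hM => decided_of ?_, fun ι q _ χ h => decided_of ?_⟩
  · refine Pool.Agent.H983R4.GL.Fam.of_afam (p := m)
      (PersistentLargeValues.afam_gl hm hD hM) (by exact_mod_cast hm) ?_ fun _ _ => rfl
    intro i t
    have h1 := (D i).C_one (hD i).N_pos
    nlinarith [abs_nonneg t]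
  · exact PersistentLargeValues.Fam.comp PersistentLargeValues.fam_dir
      (fun i => (⟨q i, (h i).1, χ i, (h i).2, trivial⟩ : H855R2.SF.DC (fun _ _ => True)))

end Pool.Agent.Results.MP_52e316_nt.RandomSampling
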